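import Pool.Agent.X59.OS.Sets

/-! Books, cones over books, and their trees. -/

set_option autoImplicit false
set_option maxRecDepth 100000
set_option maxHeartbeats 4000000
open Finset
open scoped Classical

namespace Pool.Agent.X59.OS
open Pool.Agent.Y47.BU Pool.Agent.Y47.BU5
open Pool.Agent.H122R2.N6 Pool.Agent.H37R3.Pen Pool.Agent.H37R3.Cop Pool.Agent.H37R3.CopL
open Pool.Agent.TH773 Pool.Agent.TH773.ST

/-- The edges of `H` inside `S` are the triples that contain two given vertices of `S`. -/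
def IsBook {n : ℕ} (H : Finset (Finset (Fin n))) (S : Finset (Fin n)) : Prop :=
  ∃ x ∈ S, ∃ y ∈ S, x ≠ y ∧ ∀ e ⊆ S, e.card = 3 → (e ∈ H ↔ x ∈ e ∧ y ∈ e)

/-- The edges of `H` inside `S` are the triples that contain a given vertex and one of two others. -/
def IsCone {n : ℕ} (H : Finset (Finset (Fin n))) (S : Finset (Fin n)) : Prop :=
  ∃ v ∈ S, ∃ x ∈ S, ∃ y ∈ S, v ≠ x ∧ v ≠ y ∧ x ≠ y ∧
    ∀ e ⊆ S, e.card = 3 → (e ∈ H ↔ v ∈ e ∧ (x ∈ e ∨ y ∈ e))

/-- the pattern of the books -/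
def PB : Pt := ⟨3, [(0, 1, 2, 1)], [(0, 1, 0), (0, 2, 0)]⟩

/-- the pattern of the cones over books -/
def PC : Pt := ⟨4, [(0, 1, 2, 1), (0, 1, 3, 1), (0, 2, 3, 0), (1, 2, 3, 1)],
  [(0, 1, 0), (0, 2, 0), (0, 3, 0)]⟩

def tB0 : Tr := (.n 1 (.n 3 (.f 200) (.n 2 (.f 136) (.n 4 (.f 264) (.k 543227968)))) (.n 6 (.f 1) (.n 2 (.n 3 (.f 208) (.n 4 (.f 272) (.k 543195200))) (.n 12 (.f 2) (.n 4 (.n 5 (.f 352) (.k 675315776)) (.k 541098048))))))
def tB1 : Tr := (.n 1 (.n 3 (.f 200) (.n 2 (.f 136) (.n 4 (.f 264) (.k 543227968)))) (.n 6 (.f 1) (.n 4 (.n 5 (.f 352) (.n 2 (.f 272) (.k 675315776))) (.n 10 (.n 11 (.f 353) (.n 5 (.n 2 (.f 336) (.k 541098048)) (.k 679510080))) (.k 539263040)))))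
def tB2 : Tr := (.n 1 (.n 3 (.f 200) (.n 5 (.f 328) (.n 18 (.f 3) (.n 30 (.f 5) (.n 2 (.f 136) (.k 677445696)))))) (.n 6 (.f 1) (.n 3 (.n 5 (.f 344) (.n 30 (.f 5) (.n 4 (.f 280) (.k 679510080)))) (.n 9 (.n 10 (.f 281) (.n 18 (.f 3) (.n 19 (.n 20 (.f 139) (.n 15 (.f 218) (.n 23 (.f 331) (.k 677741568)))) (.k 425754688)))) (.k 405045312)))))
def tC0 : Tr := (.n 13 (.n 19 (.n 8 (.n 6 (.n 10 (.f 2065) (.n 11 (.f 2577) (.n 9 (.n 15 (.n 12 (.f 1546) (.f 1153)) (.f 1177)) (.k 10584648)))) (.n 9 (.n 15 (.n 12 (.f 578) (.n 16 (.f 2250) (.k 8459264))) (.f 1177)) (.k 6328832))) (.n 9 (.n 6 (.n 10 (.f 2073) (.k 8454728)) (.k 4231680)) (.k 6357576))) (.n 9 (.n 15 (.n 12 (.f 1546) (.n 16 (.f 2250) (.k 8459264))) (.n 8 (.f 1177) (.n 6 (.n 10 (.f 2073) (.k 8454728)) (.k 4231680)))) (.k 6652488))) (.n 8 (.n 19 (.n 20 (.n 18 (.f 1035) (.n 22 (.f 2187) (.k 8492544))) (.n 9 (.f 1745) (.n 6 (.n 10 (.f 2065) (.k 8487496))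 (.k 6328832)))) (.n 9 (.n 6 (.n 10 (.f 2065) (.n 11 (.f 2577) (.n 12 (.n 2 (.n 1 (.f 1160) (.n 16 (.n 17 (.f 2818) (.k 10556424)) (.k 8459272))) (.n 1 (.f 17) (.k 4227136))) (.k 4522496)))) (.n 1 (.n 2 (.n 3 (.f 1672) (.n 4 (.f 2128) (.k 8486976))) (.n 12 (.n 4 (.n 3 (.f 2136) (.n 18 (.n 5 (.n 24 (.n 26 (.f 20) (.n 27 (.f 28) (.n 25 (.n 30 (.n 32 (.f 21) (.n 33 (.f 29) (.n 31 (.n 16 (.n 17 (.f 2818) (.k 10912848)) (.k 8782928)) (.k 10913288)))) (.n 16 (.n 17 (.f 2818) (.k 10556424)) (.k 8782928))) (.k 8783368)))) (.n 30 (.n 32 (.f 21) (.n 33 (.f 29) (.n 31 (.n 17 (.n 16 (.f 2818) (.k 8459272)) (.k 10912848)) (.k 10913288)))) (.n 16 (.n 17 (.f 2818) (.k 10556424)) (.k 8459272)))) (.k 10584128)) (.k 6652416))) (.k 8454208)) (.k 4522496))) (.k 2392128))) (.k 6652488))) (.k 4522568)))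
def tC1 : Tr := (.n 24 (.n 4 (.n 1 (.n 5 (.f 2656) (.n 2 (.n 3 (.f 1672) (.k 10584128)) (.k 10551360))) (.n 2 (.n 3 (.f 1696) (.k 6324288)) (.k 4227136))) (.n 1 (.n 5 (.n 2 (.f 2640) (.k 8454208)) (.k 10616896)) (.k 8421440))) (.n 4 (.n 6 (.n 11 (.n 10 (.f 2593) (.n 8 (.f 2577) (.n 9 (.f 2585) (.k 6357576)))) (.n 10 (.n 8 (.f 2177) (.k 10551880)) (.k 10617416))) (.n 1 (.n 5 (.f 2656) (.n 30 (.n 31 (.n 34 (.f 549) (.n 32 (.f 533) (.n 2 (.n 3 (.f 1672) (.k 10584128)) (.k 10551360)))) (.n 34 (.n 32 (.f 2181) (.k 10912776)) (.k 10913800))) (.k 10911808))) (.k 2392128))) (.k 8781888)))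

theorem okB : ∀ m ∈ Pool.Agent.H37R3.UA.MS, ∃ tr, ck5 PB m [] tr = true := by
  intro m hm
  simp only [Pool.Agent.H37R3.UA.MS, List.mem_cons, List.not_mem_nil, or_false] at hm
  rcases hm with rfl | rfl | rfl
  exacts [⟨tB0, by decide +kernel⟩, ⟨tB1, by decide +kernel⟩, ⟨tB2, by decide +kernel⟩]

theorem okC : ∀ m ∈ famM 0, ∃ tr, chk PC m [] tr = true := by
  intro m hm
  have hm' : m = 96747 ∨ m = 228027 := by simpa [famM] using hm
  rcases hm' with rfl | rfl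
  exacts [⟨tC0, by decide +kernel⟩, ⟨tC1, by decide +kernel⟩]

theorem tri_iff {n : ℕ} {H : Finset (Finset (Fin n))} {a b c : Fin n} {v : ℕ}
    (h : tri H a b c = v) : (({a, b, c} : Finset (Fin n)) ∈ H ↔ v = 1) := by
  rw [← tri_mem, h]

/-- a triple of the image of a map -/
theorem triple_of {n k : ℕ} {f : Fin k → Fin n} {e : Finset (Fin n)}
    (he : e ⊆ univ.image f) (h3 : e.card = 3) :
    ∃ i j l : Fin k, i < j ∧ j < l ∧ e = {f i, f j, f l} := by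
  obtain ⟨a, b, c, hab, hac, hbc, rfl⟩ := card_eq_three.mp h3
  obtain ⟨i, -, hi⟩ := mem_image.mp (he (mem_insert_self a _))
  obtain ⟨j, -, hj⟩ := mem_image.mp (he (mem_insert_of_mem (mem_insert_self b _)))
  obtain ⟨l, -, hl⟩ := mem_image.mp (he (mem_insert_of_mem (mem_insert_of_mem
    (mem_singleton_self c))))
  subst hi hj hl
  have hij : i ≠ j := fun h => hab (by rw [h])
  have hil : i ≠ l := fun h => hac (by rw [h])
  have hjl : j ≠ l := fun h => hbc (by rw [h])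
  rcases lt_or_gt_of_ne hij with h1 | h1 <;> rcases lt_or_gt_of_ne hil with h2 | h2 <;>
    rcases lt_or_gt_of_ne hjl with h3 | h3
  · exact ⟨i, j, l, h1, h3, rfl⟩
  · exact ⟨i, l, j, h2, h3, by rw [pair_comm (f j)]⟩
  · exact absurd (h1.trans h3) (not_lt.mpr h2.le)
  · exact ⟨l, i, j, h2, h1, by ext t; simp; tauto⟩
  · exact ⟨j, i, l, h1, h2, by rw [insert_comm]⟩
  · exact absurd (h1.trans h2) (not_lt.mpr h3.le)
  · exact ⟨j, l, i, h3, h2, by ext t; simp; tauto⟩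
  · exact ⟨l, j, i, h3, h1, by ext t; simp; tauto⟩

/-- the vertices of a book in a blow-up: the spine and the pages -/
def eB {t : ℕ} (ht : 0 < t) (i : Fin (t + 2)) : Fin PB.k × Fin t :=
  if i.val = 0 then (⟨1, by decide⟩, ⟨0, ht⟩)
  else if i.val = 1 then (⟨2, by decide⟩, ⟨0, ht⟩)
  else (⟨0, by decide⟩, ⟨i.val - 2, by have := i.isLt; omega⟩)

theorem eB_inj {t : ℕ} (ht : 0 < t) : Function.Injective (eB ht) := by
  intro i j h
  unfold eB at h
  split_ifs at h with h1 h2 h3 h4 h5 h6 h7 h8 <;>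
    simp only [Prod.mk.injEq, Fin.mk.injEq] at h <;> apply Fin.ext <;> omega

/-- the vertices of a cone over a book -/
def eC {t : ℕ} (ht : 0 < t) (i : Fin (t + 3)) : Fin PC.k × Fin t :=
  if i.val = 0 then (⟨1, by decide⟩, ⟨0, ht⟩)
  else if i.val = 1 then (⟨2, by decide⟩, ⟨0, ht⟩)
  else if i.val = 2 then (⟨3, by decide⟩, ⟨0, ht⟩)
  else (⟨0, by decide⟩, ⟨i.val - 3, by have := i.isLt; omega⟩)

theorem eC_inj {t : ℕ} (ht : 0 < t) : Function.Injective (eC ht) := by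
  intro i j h
  unfold eC at h
  split_ifs at h <;>
    simp only [Prod.mk.injEq, Fin.mk.injEq] at h <;> apply Fin.ext <;> omega

theorem book_of {n t : ℕ} (ht : 0 < t) (H : Finset (Finset (Fin n)))
    (w : Fin PB.k × Fin t → Fin n) (hO : Occ (tri H) PB t w) :
    IsBook H (univ.image (w ∘ eB ht)) := by
  have hinj : Function.Injective (w ∘ eB ht) := hO.inj.comp (eB_inj ht)
  set f := w ∘ eB ht with hf
  have e0 : f ⟨0, by omega⟩ = w (⟨1, by decide⟩, ⟨0, ht⟩) := by simp [hf, eB]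
  have e1 : f ⟨1, by omega⟩ = w (⟨2, by decide⟩, ⟨0, ht⟩) := by simp [hf, eB]
  have e2 : ∀ (i : ℕ) (hi : i < t), f ⟨i + 2, by omega⟩ = w (⟨0, by decide⟩, ⟨i, hi⟩) := by
    intro i hi
    simp [hf, eB]
  refine ⟨f ⟨0, by omega⟩, mem_image_of_mem _ (mem_univ _), f ⟨1, by omega⟩,
    mem_image_of_mem _ (mem_univ _), fun h => ?_, ?_⟩
  · have := hinj h
    simp at this
  · intro e he h3
    obtain ⟨i, j, l, hij, hjl, rfl⟩ := triple_of he h3
    have hm : ∀ a : Fin (t + 2), (f a ∈ ({f i, f j, f l} : Finset (Fin n)) ↔ a = i ∨ a = j ∨ a = l) := by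
      intro a
      simp only [mem_insert, mem_singleton, hinj.eq_iff]
    rw [hm, hm]
    obtain ⟨i, hi⟩ := i
    obtain ⟨j, hj⟩ := j
    obtain ⟨l, hl⟩ := l
    simp only [Fin.mk_lt_mk] at hij hjl
    simp only [Fin.mk.injEq]
    obtain ⟨l, rfl⟩ : ∃ l', l = l' + 2 := ⟨l - 2, by omega⟩
    have hl' : l < t := by omega
    rcases Nat.lt_or_ge j 2 with hj2 | hj2
    · -- i = 0, j = 1
      obtain rfl : i = 0 := by omega
      obtain rfl : j = 1 := by omega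
      have h := hO.tri (0, 1, 2, 1) (by simp [PB]) (by decide) (by decide) (by decide)
        ⟨l, hl'⟩ ⟨0, ht⟩ ⟨0, ht⟩
      have h' := tri_iff h
      rw [e0, e1, e2 l hl']
      have hs : ({w (⟨1, by decide⟩, ⟨0, ht⟩), w (⟨2, by decide⟩, ⟨0, ht⟩),
          w (⟨0, by decide⟩, ⟨l, hl'⟩)} : Finset (Fin n)) =
          {w (⟨0, by decide⟩, ⟨l, hl'⟩), w (⟨1, by decide⟩, ⟨0, ht⟩),
          w (⟨2, by decide⟩, ⟨0, ht⟩)} := by
        ext t; simp; tauto
      rw [hs]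
      simp only [true_or, or_true, and_self, iff_true]
      exact h'.mpr rfl
    · obtain ⟨j, rfl⟩ : ∃ j', j = j' + 2 := ⟨j - 2, by omega⟩
      have hj' : j < t := by omega
      have hjl' : (⟨j, hj'⟩ : Fin t) ≠ ⟨l, hl'⟩ := by
        intro h; rw [Fin.mk.injEq] at h; omega
      have hR : ¬ ((0 = i ∨ 0 = j + 2 ∨ 0 = l + 2) ∧ (1 = i ∨ 1 = j + 2 ∨ 1 = l + 2)) := by omega
      refine iff_of_false ?_ hR
      rw [e2 l hl', e2 j hj']
      rcases Nat.lt_or_ge i 2 with hi2 | hi2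
      · have : i = 0 ∨ i = 1 := by omega
        rcases this with rfl | rfl
        · rw [e0]
          have h := hO.par (0, 1, 0) (by simp [PB]) (by decide) (by decide) ⟨j, hj'⟩ ⟨l, hl'⟩
            ⟨0, ht⟩ hjl'
          intro hh
          have hs : ({w (⟨1, by decide⟩, ⟨0, ht⟩), w (⟨0, by decide⟩, ⟨j, hj'⟩),
              w (⟨0, by decide⟩, ⟨l, hl'⟩)} : Finset (Fin n)) =
              {w (⟨0, by decide⟩, ⟨j, hj'⟩), w (⟨0, by decide⟩, ⟨l, hl'⟩),
              w (⟨1, by decide⟩, ⟨0, ht⟩)} := by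
            ext t; simp; tauto
          rw [hs] at hh
          exact absurd ((tri_iff h).mp hh) (by decide)
        · rw [e1]
          have h := hO.par (0, 2, 0) (by simp [PB]) (by decide) (by decide) ⟨j, hj'⟩ ⟨l, hl'⟩
            ⟨0, ht⟩ hjl'
          intro hh
          have hs : ({w (⟨2, by decide⟩, ⟨0, ht⟩), w (⟨0, by decide⟩, ⟨j, hj'⟩),
              w (⟨0, by decide⟩, ⟨l, hl'⟩)} : Finset (Fin n)) =
              {w (⟨0, by decide⟩, ⟨j, hj'⟩), w (⟨0, by decide⟩, ⟨l, hl'⟩),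
              w (⟨2, by decide⟩, ⟨0, ht⟩)} := by
            ext t; simp; tauto
          rw [hs] at hh
          exact absurd ((tri_iff h).mp hh) (by decide)
      · obtain ⟨i, rfl⟩ : ∃ i', i = i' + 2 := ⟨i - 2, by omega⟩
        have hi' : i < t := by omega
        rw [e2 i hi']
        have h := hO.ind ⟨0, by decide⟩ ⟨i, hi'⟩ ⟨j, hj'⟩ ⟨l, hl'⟩
          (by intro h; rw [Fin.mk.injEq] at h; omega) (by intro h; rw [Fin.mk.injEq] at h; omega)
          hjl'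
        intro hh
        exact absurd ((tri_iff h).mp hh) (by decide)


theorem perm1 {n : ℕ} (a b c : Fin n) : ({a, b, c} : Finset (Fin n)) = {c, a, b} := by
  ext t; simp; tauto

theorem perm2 {n : ℕ} (a b c : Fin n) : ({a, b, c} : Finset (Fin n)) = {b, c, a} := by
  ext t; simp; tauto

theorem cone_of {n t : ℕ} (ht : 0 < t) (H : Finset (Finset (Fin n)))
    (w : Fin PC.k × Fin t → Fin n) (hO : Occ (tri H) PC t w) :
    IsCone H (univ.image (w ∘ eC ht)) := by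
  have hinj : Function.Injective (w ∘ eC ht) := hO.inj.comp (eC_inj ht)
  set f := w ∘ eC ht with hf
  have e0 : f ⟨0, by omega⟩ = w (⟨1, by decide⟩, ⟨0, ht⟩) := by simp [hf, eC]
  have e1 : f ⟨1, by omega⟩ = w (⟨2, by decide⟩, ⟨0, ht⟩) := by simp [hf, eC]
  have e2 : f ⟨2, by omega⟩ = w (⟨3, by decide⟩, ⟨0, ht⟩) := by simp [hf, eC]
  have e3 : ∀ (i : ℕ) (hi : i < t), f ⟨i + 3, by omega⟩ = w (⟨0, by decide⟩, ⟨i, hi⟩) := by
    intro i hi
    simp [hf, eC]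
  refine ⟨f ⟨0, by omega⟩, mem_image_of_mem _ (mem_univ _), f ⟨1, by omega⟩,
    mem_image_of_mem _ (mem_univ _), f ⟨2, by omega⟩,
    mem_image_of_mem _ (mem_univ _), fun h => ?_, fun h => ?_, fun h => ?_, ?_⟩
  · have := hinj h
    simp at this
  · have := hinj h
    simp at this
  · have := hinj h
    simp at this
  · intro e he h3
    obtain ⟨i, j, l, hij, hjl, rfl⟩ := triple_of he h3
    have hm : ∀ a : Fin (t + 3), (f a ∈ ({f i, f j, f l} : Finset (Fin n)) ↔ a = i ∨ a = j ∨ a = l) := by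
      intro a
      simp only [mem_insert, mem_singleton, hinj.eq_iff]
    rw [hm, hm, hm]
    obtain ⟨i, hi⟩ := i
    obtain ⟨j, hj⟩ := j
    obtain ⟨l, hl⟩ := l
    simp only [Fin.mk_lt_mk] at hij hjl
    simp only [Fin.mk.injEq]
    rcases Nat.lt_or_ge l 3 with hl3 | hl3
    · -- 0, 1, 2
      obtain rfl : i = 0 := by omega
      obtain rfl : j = 1 := by omega
      obtain rfl : l = 2 := by omega
      have h := hO.tri (1, 2, 3, 1) (by simp [PC]) (by decide) (by decide) (by decide)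
        ⟨0, ht⟩ ⟨0, ht⟩ ⟨0, ht⟩
      have h' := tri_iff h
      rw [e0, e1, e2]
      exact iff_of_true (h'.mpr rfl) (by omega)
    obtain ⟨l, rfl⟩ : ∃ l', l = l' + 3 := ⟨l - 3, by omega⟩
    have hl' : l < t := by omega
    rw [e3 l hl']
    rcases Nat.lt_or_ge j 3 with hj3 | hj3
    · have h012 := hO.tri (0, 1, 2, 1) (by simp [PC]) (by decide) (by decide) (by decide)
        ⟨l, hl'⟩ ⟨0, ht⟩ ⟨0, ht⟩
      have h013 := hO.tri (0, 1, 3, 1) (by simp [PC]) (by decide) (by decide) (by decide)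
        ⟨l, hl'⟩ ⟨0, ht⟩ ⟨0, ht⟩
      have h023 := hO.tri (0, 2, 3, 0) (by simp [PC]) (by decide) (by decide) (by decide)
        ⟨l, hl'⟩ ⟨0, ht⟩ ⟨0, ht⟩
      have hc : (i = 0 ∧ j = 1) ∨ (i = 0 ∧ j = 2) ∨ (i = 1 ∧ j = 2) := by omega
      rcases hc with ⟨rfl, rfl⟩ | ⟨rfl, rfl⟩ | ⟨rfl, rfl⟩
      · rw [e0, e1, perm1]
        exact iff_of_true ((tri_iff h012).mpr rfl) (by omega)
      · rw [e0, e2, perm1]
        exact iff_of_true ((tri_iff h013).mpr rfl) (by omega)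
      · rw [e1, e2, perm1]
        exact iff_of_false (fun hh => absurd ((tri_iff h023).mp hh) (by decide)) (by omega)
    · obtain ⟨j, rfl⟩ : ∃ j', j = j' + 3 := ⟨j - 3, by omega⟩
      have hj' : j < t := by omega
      have hjl' : (⟨j, hj'⟩ : Fin t) ≠ ⟨l, hl'⟩ := by
        intro h; rw [Fin.mk.injEq] at h; omega
      refine iff_of_false ?_ (by omega)
      rw [e3 j hj']
      rcases Nat.lt_or_ge i 3 with hi3 | hi3
      · have hc : i = 0 ∨ i = 1 ∨ i = 2 := by omega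
        rcases hc with rfl | rfl | rfl
        · rw [e0, perm2]
          have h := hO.par (0, 1, 0) (by simp [PC]) (by decide) (by decide) ⟨j, hj'⟩ ⟨l, hl'⟩
            ⟨0, ht⟩ hjl'
          exact fun hh => absurd ((tri_iff h).mp hh) (by decide)
        · rw [e1, perm2]
          have h := hO.par (0, 2, 0) (by simp [PC]) (by decide) (by decide) ⟨j, hj'⟩ ⟨l, hl'⟩
            ⟨0, ht⟩ hjl'
          exact fun hh => absurd ((tri_iff h).mp hh) (by decide)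
        · rw [e2, perm2]
          have h := hO.par (0, 3, 0) (by simp [PC]) (by decide) (by decide) ⟨j, hj'⟩ ⟨l, hl'⟩
            ⟨0, ht⟩ hjl'
          exact fun hh => absurd ((tri_iff h).mp hh) (by decide)
      · obtain ⟨i, rfl⟩ : ∃ i', i = i' + 3 := ⟨i - 3, by omega⟩
        have hi' : i < t := by omega
        rw [e3 i hi']
        have h := hO.ind ⟨0, by decide⟩ ⟨i, hi'⟩ ⟨j, hj'⟩ ⟨l, hl'⟩
          (by intro h; rw [Fin.mk.injEq] at h; omega) (by intro h; rw [Fin.mk.injEq] at h; omega)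
          hjl'
        exact fun hh => absurd ((tri_iff h).mp hh) (by decide)

/-- the density `3/4` without books -/
theorem book_main {t : ℕ} (ht : 0 < t) {ε : ℝ} (hε : 0 < ε) :
    ∃ δ : ℝ, 0 < δ ∧ ∃ n0 : ℕ, ∀ n, n0 ≤ n →
      ∀ H : Finset (Finset (Fin n)), (∀ e ∈ H, e.card = 3) → Pool.Agent.H37R3.K5.K53Free H →
      ((((univ : Finset (Fin n)).powersetCard (t + 2)).filter (IsBook H)).card : ℝ) ≤
        δ * (n : ℝ) ^ (t + 2) →
      (H.card : ℝ) ≤ (3 / 4 + ε) * (n.choose 3 : ℝ) :=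
  set_main5 okB (by omega) (eB ht) (eB_inj ht) (fun _ H S => IsBook H S)
    (fun _ H w _ hw => book_of ht H w hw) hε

/-- Turán's bound and stability without cones over books -/
theorem cone_main {t : ℕ} (ht : 0 < t) {ε : ℝ} (hε : 0 < ε) :
    ∃ δ : ℝ, 0 < δ ∧ ∃ n0 : ℕ, ∀ n, n0 ≤ n →
      ∀ H : Finset (Finset (Fin n)), (∀ e ∈ H, e.card = 3) → Turan34.K43Free H →
      ((((univ : Finset (Fin n)).powersetCard (t + 3)).filter (IsCone H)).card : ℝ) ≤
        δ * (n : ℝ) ^ (t + 3) →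
      (H.card : ℝ) ≤ (5 / 9 + ε) * (n.choose 3 : ℝ) ∧ ∃ g : Fin n → Fin 3,
      ((symmDiff H (Turan34.turan g)).card : ℝ) ≤
        1161216000 * (5 / 54 * (n : ℝ) ^ 3 - H.card) + ε * (n : ℝ) ^ 3 :=
  set_main4 0 okC (by omega) (eC ht) (eC_inj ht) (fun _ H S => IsCone H S)
    (fun _ H w _ hw => cone_of ht H w hw) hε

end Pool.Agent.X59.OS
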