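import Pool.Agent.X59.OS.Book

/-! Turán's construction contains no cone over a book with two pages. -/

set_option autoImplicit false
set_option maxRecDepth 100000
set_option maxHeartbeats 4000000
open Finset
open scoped Classical

namespace Pool.Agent.X59.OS
open Pool.Agent.TH773 Pool.Agent.TH773.ST

theorem col5 : ∀ v x y a b : Fin 3, ¬ (Rf v x y = 1 ∧ Rf v x a = 1 ∧ Rf v y a = 1 ∧ Rf v x b = 1 ∧
    Rf v y b = 1 ∧ Rf x y a ≠ 1 ∧ Rf x y b ≠ 1 ∧ Rf v a b ≠ 1 ∧ Rf x a b ≠ 1 ∧ Rf y a b ≠ 1) := by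
  decide +kernel

theorem cone_turan {n : ℕ} (g : Fin n → Fin 3) {S : Finset (Fin n)} (hS : 5 ≤ S.card) :
    ¬ IsCone (Turan34.turan g) S := by
  rintro ⟨v, hv, x, hx, y, hy, hvx, hvy, hxy, h⟩
  have h1 : 2 ≤ (((S.erase v).erase x).erase y).card := by
    have e1 := card_erase_of_mem hv
    have e2 := card_erase_of_mem (mem_erase.mpr ⟨hvx.symm, hx⟩)
    have e3 := card_erase_of_mem (mem_erase.mpr ⟨hxy.symm, mem_erase.mpr ⟨hvy.symm, hy⟩⟩)
    omega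
  obtain ⟨a, ha, b, hb, hab⟩ := one_lt_card.mp h1
  simp only [mem_erase] at ha hb
  obtain ⟨hay, hax, hav, haS⟩ := ha
  obtain ⟨hby, hbx, hbv, hbS⟩ := hb
  have key : ∀ p q r : Fin n, p ∈ S → q ∈ S → r ∈ S → p ≠ q → p ≠ r → q ≠ r →
      (Rf (g p) (g q) (g r) = 1 ↔ (v = p ∨ v = q ∨ v = r) ∧
        ((x = p ∨ x = q ∨ x = r) ∨ (y = p ∨ y = q ∨ y = r))) := by
    intro p q r hp hq hr hpq hpr hqr
    rw [← mem_turan hpq hpr hqr, h _ ?_ ?_]
    · simp only [mem_insert, mem_singleton]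
    · intro z hz
      simp only [mem_insert, mem_singleton] at hz
      rcases hz with rfl | rfl | rfl
      exacts [hp, hq, hr]
    · rw [card_insert_of_notMem, card_pair hqr]
      simp only [mem_insert, mem_singleton, not_or]
      exact ⟨hpq, hpr⟩
  refine col5 (g v) (g x) (g y) (g a) (g b) ⟨?_, ?_, ?_, ?_, ?_, ?_, ?_, ?_, ?_, ?_⟩
  · exact (key v x y hv hx hy hvx hvy hxy).mpr ⟨Or.inl rfl, Or.inl (Or.inr (Or.inl rfl))⟩
  · exact (key v x a hv hx haS hvx hav.symm hax.symm).mpr ⟨Or.inl rfl, Or.inl (Or.inr (Or.inl rfl))⟩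
  · exact (key v y a hv hy haS hvy hav.symm hay.symm).mpr ⟨Or.inl rfl, Or.inr (Or.inr (Or.inl rfl))⟩
  · exact (key v x b hv hx hbS hvx hbv.symm hbx.symm).mpr ⟨Or.inl rfl, Or.inl (Or.inr (Or.inl rfl))⟩
  · exact (key v y b hv hy hbS hvy hbv.symm hby.symm).mpr ⟨Or.inl rfl, Or.inr (Or.inr (Or.inl rfl))⟩
  · rw [Ne, key x y a hx hy haS hxy hax.symm hay.symm]
    rintro ⟨h1, -⟩
    rcases h1 with h1 | h1 | h1
    exacts [hvx h1, hvy h1, hav h1.symm]
  · rw [Ne, key x y b hx hy hbS hxy hbx.symm hby.symm]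
    rintro ⟨h1, -⟩
    rcases h1 with h1 | h1 | h1
    exacts [hvx h1, hvy h1, hbv h1.symm]
  · rw [Ne, key v a b hv haS hbS hav.symm hbv.symm hab]
    rintro ⟨-, (h1 | h1 | h1) | (h1 | h1 | h1)⟩
    exacts [hvx h1.symm, hax h1.symm, hbx h1.symm, hvy h1.symm, hay h1.symm, hby h1.symm]
  · rw [Ne, key x a b hx haS hbS hax.symm hbx.symm hab]
    rintro ⟨h1, -⟩
    rcases h1 with h1 | h1 | h1
    exacts [hvx h1, hav h1.symm, hbv h1.symm]
  · rw [Ne, key y a b hy haS hbS hay.symm hby.symm hab]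
    rintro ⟨h1, -⟩
    rcases h1 with h1 | h1 | h1
    exacts [hvy h1, hav h1.symm, hbv h1.symm]

end Pool.Agent.X59.OS
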