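import Pool.Agent.Y47.BU5.CUA
import Pool.Agent.Y47.BU.OCnt

/-! Order-size pairs in `K_5^3`-free 3-graphs. -/

set_option autoImplicit false
set_option maxRecDepth 100000
set_option maxHeartbeats 4000000
open Finset
open scoped Classical

namespace Pool.Agent.X59.OS
open Pool.Agent.Y47.BU Pool.Agent.Y47.BU5
open Pool.Agent.H122R2.N6 Pool.Agent.H37R3.Pen Pool.Agent.H37R3.Cop Pool.Agent.H37R3.CopL
open Pool.Agent.H37R3.K5
open Pool.Agent.TH773 Pool.Agent.TH773.ST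
open Pool.Agent.TH773.CL (tx choose3)
open Pool.Agent.TH773.CM (CpK cpS mem_cpS)

/-- the check of a tree, listed vertices -/
def ckX5 (k q m : ℕ) : List (ℕ × ℕ) → Tr → Bool
  | env, .k p => leafK5 m env p
  | env, .f p => leafX k q m env p
  | env, .n v x y => ckX5 k q m ((v, 0) :: env) x && ckX5 k q m ((v, 1) :: env) y

section
variable {V : Type} {E : V → V → V → ℕ} {m t : ℕ} {c : ℕ → ℕ → ℕ} {env : List (ℕ × ℕ)}
  {y : Fin 6 → Fin t → V}

theorem ckX5_sound (hE : Sy E) (hK : NoK5 E) (h : Hom E m c t y)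
    (hc : ∀ i j, c i j = 0 ∨ c i j = 1) (h8 : 8 ≤ t) {k q : ℕ} :
    ∀ (tr : Tr) (env : List (ℕ × ℕ)), Agree c env → ckX5 k q m env tr = true →
    ∃ e : Fin k → Fin 6 × Fin t, Function.Injective e ∧
      spl E (List.ofFn fun i => y (e i).1 (e i).2) = q
  | .k p, env, hA, hp => (leafK5_sound hE hK h hA (by omega) hp).elim
  | .f p, env, hA, hp => leafX_sound hE h hA h8 hp
  | .n v x z, env, hA, hp => by
    have hp' : (ckX5 k q m ((v, 0) :: env) x && ckX5 k q m ((v, 1) :: env) z) = true := hp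
    rw [Bool.and_eq_true] at hp'
    rcases hc (v / 6) (v % 6) with e | e
    · exact ckX5_sound hE hK h hc h8 x _ (hA.cons e) hp'.1
    · exact ckX5_sound hE hK h hc h8 z _ (hA.cons e) hp'.2

end

/-- every large blow-up of the pattern `m` contains `k` vertices with `q` edges -/
def RamP5 (k q m : ℕ) : Prop := ∃ T : ℕ, 0 < T ∧ k ≤ 6 * T ∧
    ∀ (V : Type) (E : V → V → V → ℕ), Sy E → NoK5 E → ∀ y : Fin 6 → Fin T → V,
      (∀ i a j b, y i a = y j b → i = j ∧ a = b) →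
      (∀ f : Fin 6 → Fin T, CpK E 6 m fun i => y i (f i)) →
      ∃ e : Fin k → Fin 6 × Fin T, Function.Injective e ∧
        spl E (List.ofFn fun i => y (e i).1 (e i).2) = q

theorem ramP5 {k q m : ℕ} (hS : ∀ (V : Type) (E : V → V → V → ℕ) (c : ℕ → ℕ → ℕ)
    (y : Fin 6 → Fin (max k 8) → V), Sy E → NoK5 E → Hom E m c (max k 8) y →
      (∀ i j, c i j = 0 ∨ c i j = 1) → ∃ e : Fin k → Fin 6 × Fin (max k 8),
        Function.Injective e ∧ spl E (List.ofFn fun i => y (e i).1 (e i).2) = q) :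
    RamP5 k q m := by
  set t := max k 8 with ht
  obtain ⟨N, hNt, hN⟩ := prod_ram ((univ.filter fun p : Fin 6 × Fin 6 => p.1 ≠ p.2).toList)
    (fun p hp => (mem_filter.mp (mem_toList.mp hp)).2) t
  obtain ⟨T, hTN, hT⟩ := ind5 N
  have ht2 : 8 ≤ t := le_max_right _ _
  have ht3 : k ≤ t := le_max_left _ _
  refine ⟨T, by omega, by omega, fun V E hE hK y hy hm => ?_⟩
  have h1 : ∀ i : Fin 6, ∃ A : Finset (Fin T), A ⊆ univ ∧ A.card = N ∧
      ∀ a ∈ A, ∀ b ∈ A, ∀ d ∈ A, a < b → b < d → decide (E (y i a) (y i b) (y i d) = 1) = false := by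
    intro i
    refine hT (Fin T) univ (by rw [card_univ, Fintype.card_fin])
      (fun a b d => decide (E (y i a) (y i b) (y i d) = 1)) ?_
    intro a _ b _ c _ d _ e _ _ _ _ _ e1 e2 e3 e4 e5 e6 e7 e8 e9 e10
    have h5 := hK (y i a) (y i b) (y i c) (y i d) (y i e)
    rw [of_decide_eq_true e1, of_decide_eq_true e2, of_decide_eq_true e3,
      of_decide_eq_true e4, of_decide_eq_true e5, of_decide_eq_true e6, of_decide_eq_true e7,
      of_decide_eq_true e8, of_decide_eq_true e9, of_decide_eq_true e10] at h5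
    exact absurd h5 (by decide)
  choose A _ hAN hA using h1
  obtain ⟨B, hB, hBc⟩ := hN (Fin T) A (fun i => (hAN i).ge)
    (fun i j a b d => decide (E (y i a) (y i b) (y j d) = 1))
  have h2 : ∀ i j : Fin 6, ∃ c : Bool, i ≠ j → ∀ a ∈ B i, ∀ b ∈ B i, a < b → ∀ d ∈ B j,
      decide (E (y i a) (y i b) (y j d) = 1) = c := by
    intro i j
    by_cases hij : i = j
    · exact ⟨true, fun h => absurd hij h⟩
    · obtain ⟨c, hc⟩ := hBc (i, j) (mem_toList.mpr (mem_filter.mpr ⟨mem_univ _, hij⟩))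
      exact ⟨c, fun _ => hc⟩
  choose c hcc using h2
  have hbit : ∀ x y z : V, E x y z = 0 ∨ E x y z = 1 := fun x y z => hE.b x y z
  let c' : ℕ → ℕ → ℕ := fun i j => if h : i < 6 ∧ j < 6 then
    (if c ⟨i, h.1⟩ ⟨j, h.2⟩ = true then 1 else 0) else 0
  have hc01 : ∀ i j, c' i j = 0 ∨ c' i j = 1 := by
    intro i j
    change (if h : i < 6 ∧ j < 6 then (if c ⟨i, h.1⟩ ⟨j, h.2⟩ = true then 1 else 0) else 0) = 0 ∨
      (if h : i < 6 ∧ j < 6 then (if c ⟨i, h.1⟩ ⟨j, h.2⟩ = true then 1 else 0) else 0) = 1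
    split_ifs <;> simp
  let ι : (i : Fin 6) → Fin t ↪o Fin T := fun i => (B i).orderEmbOfFin (hB i).2
  have hι : ∀ i a, ι i a ∈ B i := fun i a => orderEmbOfFin_mem (B i) (hB i).2 a
  have par1 : ∀ i j : Fin 6, i ≠ j → ∀ a b, a < b → ∀ d,
      E (y i (ι i a)) (y i (ι i b)) (y j (ι j d)) = c' i j := by
    intro i j hij a b hab d
    have e1 := hcc i j hij (ι i a) (hι i a) (ι i b) (hι i b) ((ι i).lt_iff_lt.mpr hab) (ι j d)
      (hι j d)
    have e2 : c' i j = if c i j = true then 1 else 0 := by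
      change (if h : i.val < 6 ∧ j.val < 6 then
        (if c ⟨i.val, h.1⟩ ⟨j.val, h.2⟩ = true then 1 else 0) else 0) = _
      rw [dif_pos ⟨i.isLt, j.isLt⟩]
    rw [e2, ← e1]
    rcases hbit (y i (ι i a)) (y i (ι i b)) (y j (ι j d)) with h | h <;> simp [h]
  have hH : Hom E m c' t fun i a => y i (ι i a) := by
    refine ⟨?_, ?_, ?_, ?_⟩
    · intro i a j b h
      obtain ⟨e1, e2⟩ := hy _ _ _ _ h
      subst e1
      exact ⟨rfl, (ι i).injective e2⟩
    · intro i j l hij hjl a b d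
      have e1 := hm (fun s => if s = i then ι i a else if s = j then ι j b else ι l d) i j l hij hjl
      simp only [if_true, if_neg hij.ne', if_neg (hij.trans hjl).ne', if_neg hjl.ne'] at e1
      exact e1
    · intro i j hij a b hab d
      rcases lt_or_gt_of_ne hab with h | h
      · exact par1 i j hij a b h d
      · rw [← hE.h213]; exact par1 i j hij b a h d
    · intro i a b d hab had hbd
      refine sy_all hE (z := fun a => y i (ι i a)) ?_ a b d hab had hbd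
      intro a b d hab hbd
      have e1 := hA i (ι i a) ((hB i).1 (hι i a)) (ι i b) ((hB i).1 (hι i b)) (ι i d)
        ((hB i).1 (hι i d)) ((ι i).lt_iff_lt.mpr hab) ((ι i).lt_iff_lt.mpr hbd)
      rcases hbit (y i (ι i a)) (y i (ι i b)) (y i (ι i d)) with h | h
      · exact h
      · rw [h] at e1
        simp at e1
  obtain ⟨e, he, hO⟩ := hS V E c' (fun i a => y i (ι i a)) hE hK hH hc01
  refine ⟨fun q => ((e q).1, ι (e q).1 (e q).2), ?_, hO⟩
  intro q q' h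
  have h3 := (Prod.mk.inj h).1
  have h4 := (Prod.mk.inj h).2
  have h5 : ι (e q).1 (e q).2 = ι (e q).1 (e q').2 := by
    rw [h4]
    simp only [h3]
  exact he (Prod.ext h3 ((ι (e q).1).injective h5))

theorem ramX5 {k q m : ℕ} (tr : Tr) (hc : ckX5 k q m [] tr = true) : RamP5 k q m :=
  ramP5 fun _ _ _ _ hE hK hH hc01 => ckX5_sound hE hK hH hc01 (le_max_right _ _) tr []
    (fun _ _ _ _ => Or.inl rfl) hc

/-- covering of the blow-ups -/
theorem coverO5 {k q m T : ℕ} (hT : ∀ (V : Type) (E : V → V → V → ℕ), Sy E → NoK5 E →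
    ∀ y : Fin 6 → Fin T → V, (∀ i a j b, y i a = y j b → i = j ∧ a = b) →
      (∀ f : Fin 6 → Fin T, CpK E 6 m fun i => y i (f i)) →
      ∃ e : Fin k → Fin 6 × Fin T, Function.Injective e ∧
        spl E (List.ofFn fun i => y (e i).1 (e i).2) = q)
    {V : Type} [Fintype V] {E : V → V → V → ℕ} (hE : Sy E) (hK : NoK5 E) :
    (Bl 6 T (cpS E 6 m)).card ≤ (6 * T) ^ 2 * Fintype.card V ^ (6 * T - 1) +
      (6 * T) ^ (k) * ((gS E k q).card * Fintype.card V ^ (6 * T - k)) := by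
  have cB : Fintype.card (Fin 6 × Fin T) = 6 * T := by
    rw [Fintype.card_prod, Fintype.card_fin, Fintype.card_fin]
  have cA : Fintype.card (Fin k) = k := Fintype.card_fin k
  let C : (Fin 6 × Fin T) × (Fin 6 × Fin T) → Finset (Fin 6 × Fin T → V) := fun p =>
    univ.filter fun w => w p.1 = w p.2
  let O : (Fin k → Fin 6 × Fin T) → Finset (Fin 6 × Fin T → V) := fun e =>
    univ.filter fun w => w ∘ e ∈ gS E k q
  have h1 : ((Bl 6 T (cpS E 6 m)).image fun (y : Fin 6 → Fin T → V) (q : Fin 6 × Fin T) =>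
      y q.1 q.2) ⊆ ((univ : Finset ((Fin 6 × Fin T) × (Fin 6 × Fin T))).filter
        fun p => p.1 ≠ p.2).biUnion C ∪
      ((univ : Finset (Fin k → Fin 6 × Fin T)).filter
        fun e => Function.Injective e).biUnion O := by
    intro w hw
    obtain ⟨y, hy, rfl⟩ := mem_image.mp hw
    have hy2 := (mem_filter.mp hy).2
    by_cases hinj : Function.Injective fun q : Fin 6 × Fin T => y q.1 q.2
    · refine mem_union_right _ ?_
      obtain ⟨e, he, hO⟩ := hT V E hE hK y (fun i a j b h => by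
        have h2 := @hinj (i, a) (j, b) h
        exact ⟨(Prod.mk.inj h2).1, (Prod.mk.inj h2).2⟩) (fun f => (mem_cpS.mp (hy2 f)).2)
      exact mem_biUnion.mpr ⟨e, mem_filter.mpr ⟨mem_univ _, he⟩,
        mem_filter.mpr ⟨mem_univ _, mem_gS.mpr ⟨hinj.comp he, hO⟩⟩⟩
    · refine mem_union_left _ ?_
      rw [Function.not_injective_iff] at hinj
      obtain ⟨a, b, hab, hne⟩ := hinj
      exact mem_biUnion.mpr ⟨(a, b), mem_filter.mpr ⟨mem_univ _, hne⟩,
        mem_filter.mpr ⟨mem_univ _, hab⟩⟩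
  have h2 : ((Bl 6 T (cpS E 6 m)).image fun (y : Fin 6 → Fin T → V) (q : Fin 6 × Fin T) =>
      y q.1 q.2).card = (Bl 6 T (cpS E 6 m)).card := by
    refine card_image_of_injective _ ?_
    intro y y' h
    funext i a
    exact congrFun h (i, a)
  rw [← h2]
  refine (card_le_card h1).trans ((card_union_le _ _).trans (Nat.add_le_add ?_ ?_))
  · refine (card_biUnion_le).trans ((sum_le_card_nsmul _ _ (Fintype.card V ^ (6 * T - 1)) ?_).trans ?_)
    · intro p hp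
      have h3 := coll (V := V) p.1 p.2 (mem_filter.mp hp).2
      rw [cB] at h3
      refine le_trans (le_of_eq (congrArg card ?_)) h3
      ext w
      simp only [C, mem_filter, mem_univ, true_and]
    · rw [smul_eq_mul]
      refine Nat.mul_le_mul_right _ ((card_filter_le _ _).trans (le_of_eq ?_))
      rw [card_univ, Fintype.card_prod, cB]
      ring
  · refine (card_biUnion_le).trans ((sum_le_card_nsmul _ _
      ((gS E k q).card * Fintype.card V ^ (6 * T - k)) ?_).trans ?_)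
    · intro e he
      have h3 := pull (V := V) e (mem_filter.mp he).2 (O e) (gS E k q)
        (fun w hw => (mem_filter.mp hw).2)
      rw [cB, cA] at h3
      exact h3
    · rw [smul_eq_mul]
      refine Nat.mul_le_mul_right _ ((card_filter_le _ _).trans (le_of_eq ?_))
      rw [card_univ, Fintype.card_fun, cB, cA]

/-- a pattern with a valid tree is negligible -/
theorem negO5 {k q m : ℕ} (hR : RamP5 k q m) : ∀ κ : ℕ, ∃ K n0 : ℕ,
    ∀ (V : Type) [Fintype V] (E : V → V → V → ℕ), Sy E → NoK5 E →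
      K * (gS E k q).card ≤ Fintype.card V ^ (k) → n0 ≤ Fintype.card V →
      κ * (cpS E 6 m).card ≤ Fintype.card V ^ 6 := by
  intro κ
  obtain ⟨T, hT0, hkT, hT⟩ := hR
  set D := T ^ 6 with hD
  set M := (6 * T) ^ (k) with hM
  refine ⟨2 * M * κ ^ D + 1, 2 * (6 * T) ^ 2 * κ ^ D + 1, fun V _ E hE hK hO hn => ?_⟩
  by_contra hneg
  rw [not_le] at hneg
  set S := cpS E 6 m with hS
  set nn := Fintype.card V with hnn
  have hn0 : 0 < nn := by omega
  have hκ : 0 < κ := by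
    rcases Nat.eq_zero_or_pos κ with e | e
    · rw [e, Nat.zero_mul] at hneg
      exact absurd hneg (Nat.not_lt_zero _)
    · exact e
  have hnr : (0 : ℝ) < (nn : ℝ) := by exact_mod_cast hn0
  have hκr : (0 : ℝ) < (κ : ℝ) := by exact_mod_cast hκ
  have b1 := bl_card (V := V) (n := (nn : ℝ)) (by rw [hnn]) hnr hT0 6 S
  have hδ : (1 : ℝ) / κ ≤ (S.card : ℝ) / (nn : ℝ) ^ 6 := by
    rw [div_le_div_iff₀ hκr (by positivity), one_mul]
    have h1 : ((nn ^ 6 : ℕ) : ℝ) ≤ ((κ * S.card : ℕ) : ℝ) := by exact_mod_cast hneg.le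
    push_cast at h1
    linarith [mul_comm (κ : ℝ) S.card]
  have b2 : (nn : ℝ) ^ (6 * T) * (1 / κ) ^ D ≤ ((Bl 6 T S).card : ℝ) := by
    refine le_trans ?_ b1
    refine mul_le_mul_of_nonneg_left ?_ (by positivity)
    exact pow_le_pow_left₀ (by positivity) hδ _
  have b3 : ((Bl 6 T S).card : ℝ) ≤ (6 * T) ^ 2 * (nn : ℝ) ^ (6 * T - 1) +
      M * ((gS E k q).card * (nn : ℝ) ^ (6 * T - k)) := by
    have h1 := coverO5 hT (E := E) hE hK
    have h2 : (((Bl 6 T S).card : ℕ) : ℝ) ≤ (((6 * T) ^ 2 * nn ^ (6 * T - 1) +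
      M * ((gS E k q).card * nn ^ (6 * T - k)) : ℕ) : ℝ) := by exact_mod_cast h1
    push_cast at h2
    exact h2
  -- the two terms
  have e1 : (nn : ℝ) ^ (6 * T - 1) = (nn : ℝ) ^ (6 * T) / nn := by
    rw [eq_div_iff hnr.ne', ← pow_succ]
    congr 1
    omega
  have hκD : (0 : ℝ) < (κ : ℝ) ^ D := by positivity
  have t1 : (6 * T : ℝ) ^ 2 * (nn : ℝ) ^ (6 * T - 1) <
      (nn : ℝ) ^ (6 * T) * ((1 / κ) ^ D / 2) := by
    rw [e1, one_div, inv_pow]
    have h1 : ((2 * (6 * T) ^ 2 * κ ^ D + 1 : ℕ) : ℝ) ≤ (nn : ℝ) := by exact_mod_cast hn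
    push_cast at h1
    have h2 : (2 : ℝ) * (6 * T) ^ 2 * κ ^ D < nn := by linarith
    have h3 : (6 * T : ℝ) ^ 2 / nn < ((κ : ℝ) ^ D)⁻¹ / 2 := by
      rw [div_lt_iff₀ hnr]
      have h4 : ((κ : ℝ) ^ D)⁻¹ / 2 * (2 * (6 * T) ^ 2 * κ ^ D) = (6 * T) ^ 2 := by
        field_simp
      calc (6 * T : ℝ) ^ 2 = ((κ : ℝ) ^ D)⁻¹ / 2 * (2 * (6 * T) ^ 2 * κ ^ D) := h4.symm
        _ < ((κ : ℝ) ^ D)⁻¹ / 2 * nn := mul_lt_mul_of_pos_left h2 (by positivity)
    calc (6 * T : ℝ) ^ 2 * ((nn : ℝ) ^ (6 * T) / nn) = (nn : ℝ) ^ (6 * T) *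
          ((6 * T : ℝ) ^ 2 / nn) := by ring
      _ < _ := mul_lt_mul_of_pos_left h3 (by positivity)
  have t2 : (M : ℝ) * ((gS E k q).card * (nn : ℝ) ^ (6 * T - k)) ≤
      (nn : ℝ) ^ (6 * T) * ((1 / κ) ^ D / 2) := by
    rw [one_div, inv_pow]
    rcases Nat.eq_zero_or_pos (gS E k q).card with e0 | e0
    · rw [e0]
      simp only [Nat.cast_zero, zero_mul, mul_zero]
      positivity
    · have h1 : (((2 * M * κ ^ D + 1) * (gS E k q).card : ℕ) : ℝ) ≤
          ((nn ^ (k) : ℕ) : ℝ) := by exact_mod_cast hO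
      push_cast at h1
      have h2 : (2 : ℝ) * M * κ ^ D * (gS E k q).card ≤ (nn : ℝ) ^ (k) := by
        have h3 : (0 : ℝ) ≤ ((gS E k q).card : ℝ) := Nat.cast_nonneg _
        nlinarith
      have h3 : (nn : ℝ) ^ (6 * T) = (nn : ℝ) ^ (k) * (nn : ℝ) ^ (6 * T - k) := by
        rw [← pow_add]
        congr 1
        omega
      rw [h3]
      have h4 : (M : ℝ) * (gS E k q).card ≤ (nn : ℝ) ^ (k) * (((κ : ℝ) ^ D)⁻¹ / 2) := by
        have h5 : (M : ℝ) * (gS E k q).card =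
            (2 * M * κ ^ D * (gS E k q).card) * (((κ : ℝ) ^ D)⁻¹ / 2) := by
          field_simp
        rw [h5]
        exact mul_le_mul_of_nonneg_right h2 (by positivity)
      calc (M : ℝ) * ((gS E k q).card * (nn : ℝ) ^ (6 * T - k)) =
            ((M : ℝ) * (gS E k q).card) * (nn : ℝ) ^ (6 * T - k) := by ring
        _ ≤ ((nn : ℝ) ^ (k) * (((κ : ℝ) ^ D)⁻¹ / 2)) * (nn : ℝ) ^ (6 * T - k) :=
            mul_le_mul_of_nonneg_right h4 (by positivity)
        _ = _ := by ring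
  have b4 : (nn : ℝ) ^ (6 * T) * (1 / κ) ^ D < (nn : ℝ) ^ (6 * T) * (1 / κ) ^ D := by
    calc (nn : ℝ) ^ (6 * T) * (1 / κ) ^ D ≤ _ := b2
      _ ≤ _ := b3
      _ < (nn : ℝ) ^ (6 * T) * ((1 / κ) ^ D / 2) + (nn : ℝ) ^ (6 * T) * ((1 / κ) ^ D / 2) :=
          add_lt_add_of_lt_of_le t1 t2
      _ = _ := by ring
  exact lt_irrefl _ b4

theorem neg_listO5 {k q : ℕ} (κ : ℕ) : ∀ (L : List ℕ), (∀ m ∈ L, RamP5 k q m) →
    ∃ K n0 : ℕ, ∀ (V : Type) [Fintype V] (E : V → V → V → ℕ), Sy E → NoK5 E →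
      K * (gS E k q).card ≤ Fintype.card V ^ k → n0 ≤ Fintype.card V →
      ∀ m ∈ L, κ * (cpS E 6 m).card ≤ Fintype.card V ^ 6
  | [], _ => ⟨0, 0, fun _ _ _ _ _ _ _ m hm => absurd hm List.not_mem_nil⟩
  | m :: L, h => by
    obtain ⟨K1, n1, h1⟩ := negO5 (h m (List.mem_cons_self ..)) κ
    obtain ⟨K2, n2, h2⟩ := neg_listO5 κ L fun m' hm' => h m' (List.mem_cons_of_mem _ hm')
    refine ⟨max K1 K2, max n1 n2, fun V _ E hE hK hO hn m' hm' => ?_⟩
    rcases List.mem_cons.mp hm' with rfl | hm'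
    · exact h1 V E hE hK ((Nat.mul_le_mul_right _ (le_max_left _ _)).trans hO)
        ((le_max_left _ _).trans hn)
    · exact h2 V E hE hK ((Nat.mul_le_mul_right _ (le_max_right _ _)).trans hO)
        ((le_max_right _ _).trans hn) m' hm'

/-- the general conclusion -/
theorem mainO5 {k q : ℕ} (h : ∀ m ∈ Pool.Agent.H37R3.UA.MS, RamP5 k q m) {ε : ℝ} (hε : 0 < ε) :
    ∃ K n0 : ℕ, ∀ n, n0 ≤ n → ∀ H : Finset (Finset (Fin n)), (∀ e ∈ H, e.card = 3) →
      K53Free H → K * (gS (tri H) k q).card ≤ n ^ k →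
      (H.card : ℝ) ≤ (3 / 4 + ε) * (n.choose 3 : ℝ) := by
  obtain ⟨MS, hMS⟩ : ∃ MS, MS = Pool.Agent.H37R3.UA.MS := ⟨_, rfl⟩
  obtain ⟨FS, hFS⟩ : ∃ FS, FS = Pool.Agent.H37R3.UA.FS := ⟨_, rfl⟩
  have hC : Cert MS FS 96 := by rw [hMS, hFS]; exact certUA
  rw [← hMS] at h
  obtain ⟨C, hCe⟩ : ∃ C : ℕ, C = 96 := ⟨_, rfl⟩
  rw [← hCe] at hC
  obtain ⟨k', hk⟩ := exists_nat_ge ((3 : ℝ) * (C * MS.length) / ε + 1)
  obtain ⟨n1, hn1⟩ := exists_nat_ge ((9 : ℝ) / ε)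
  obtain ⟨K, n0, h1⟩ := neg_listO5 k' MS h
  refine ⟨K, max n0 (max n1 6), fun n hn H h3 hK hO => ?_⟩
  have a0 : n0 ≤ n := (le_max_left _ _).trans hn
  have a1 : n1 ≤ n := (le_max_left _ _).trans ((le_max_right _ _).trans hn)
  have a2 : 6 ≤ n := (le_max_right _ _).trans ((le_max_right _ _).trans hn)
  have h2 := h1 (Fin n) (tri H) (tri_sy H) (tri_noK5 h3 hK)
  rw [Fintype.card_fin] at h2
  have h4 := Pool.Agent.Y47.BU5.copies_le hC.mask H (h2 hO a0)
  have h5 := hC.ineq n (by omega) H h3 hK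
  set N := (((univ : Finset (Fin n)).powersetCard 6).filter fun S => IndL FS H S).card with hN
  set L := MS.length with hL
  have hn0 : (0 : ℝ) < n := by
    have : (6 : ℝ) ≤ n := by exact_mod_cast a2
    linarith
  have hk1 : (3 : ℝ) * (C * L) ≤ ε * k' := by
    have b1 : (3 : ℝ) * (C * L) / ε ≤ k' := by linarith
    rw [div_le_iff₀ hε] at b1
    linarith [mul_comm (k' : ℝ) ε]
  have hk0 : (0 : ℝ) < k' := by
    have b1 : (0 : ℝ) ≤ (3 : ℝ) * (C * L) / ε := by positivity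
    linarith
  have g2 : (k' : ℝ) * N ≤ L * (n : ℝ) ^ 6 := by exact_mod_cast h4
  have g3 : (C : ℝ) * N ≤ ε / 3 * (n : ℝ) ^ 6 := by
    refine le_of_mul_le_mul_left ?_ hk0
    calc (k' : ℝ) * (C * N) = C * (k' * N) := by ring
      _ ≤ C * (L * (n : ℝ) ^ 6) := mul_le_mul_of_nonneg_left g2 (by positivity)
      _ = (3 * (C * L)) / 3 * (n : ℝ) ^ 6 := by ring
      _ ≤ (ε * k') / 3 * (n : ℝ) ^ 6 := by
          apply mul_le_mul_of_nonneg_right _ (by positivity)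
          linarith
      _ = k' * (ε / 3 * (n : ℝ) ^ 6) := by ring
  have g1 : 8 * (n : ℝ) ^ 3 * H.card ≤ (n : ℝ) ^ 6 + C * N := by exact_mod_cast h5
  have g4 : 8 * (H.card : ℝ) ≤ (n : ℝ) ^ 3 + ε / 3 * (n : ℝ) ^ 3 := by
    have b2 : (0 : ℝ) < (n : ℝ) ^ 3 := by positivity
    refine le_of_mul_le_mul_left ?_ b2
    calc (n : ℝ) ^ 3 * (8 * H.card) = 8 * (n : ℝ) ^ 3 * H.card := by ring
      _ ≤ (n : ℝ) ^ 6 + ε / 3 * (n : ℝ) ^ 6 := by linarith
      _ = (n : ℝ) ^ 3 * ((n : ℝ) ^ 3 + ε / 3 * (n : ℝ) ^ 3) := by ring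
  obtain ⟨c1, c2⟩ := choose3 a2
  have hn9 : (9 : ℝ) ≤ ε * n := by
    rw [div_le_iff₀ hε] at hn1
    have a3 : (n1 : ℝ) ≤ n := by exact_mod_cast a1
    have a4 : (n1 : ℝ) * ε ≤ n * ε := mul_le_mul_of_nonneg_right a3 hε.le
    linarith [mul_comm (n : ℝ) ε]
  have g5 : (9 : ℝ) * (n : ℝ) ^ 2 ≤ ε * (n : ℝ) ^ 3 := by
    have b3 : (9 : ℝ) * (n : ℝ) ^ 2 ≤ (ε * n) * (n : ℝ) ^ 2 :=
      mul_le_mul_of_nonneg_right hn9 (by positivity)
    linarith [b3, show (ε * n) * (n : ℝ) ^ 2 = ε * (n : ℝ) ^ 3 by ring]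
  have g6 : ε * (n : ℝ) ^ 3 ≤ ε * (12 * (n.choose 3 : ℝ)) := mul_le_mul_of_nonneg_left c1 hε.le
  nlinarith

/-- Turán's bound for order-size pairs in `K_5^3`-free 3-graphs -/
theorem pair_main {k m : ℕ} (hk : 0 < k) (h : ∀ w ∈ Pool.Agent.H37R3.UA.MS, RamP5 k m w) {ε : ℝ}
    (hε : 0 < ε) : ∃ δ : ℝ, 0 < δ ∧ ∃ n0 : ℕ, ∀ n, n0 ≤ n →
      ∀ H : Finset (Finset (Fin n)), (∀ e ∈ H, e.card = 3) → K53Free H →
      (Turan34.spans H k m : ℝ) ≤ δ * (n : ℝ) ^ k →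
        (H.card : ℝ) ≤ (3 / 4 + ε) * (n.choose 3 : ℝ) := by
  obtain ⟨K, n0, h⟩ := mainO5 h hε
  have hk0 : 0 < k ^ k := Nat.pow_pos hk
  have hk1 : (0 : ℝ) < ((k ^ k : ℕ) : ℝ) := by exact_mod_cast hk0
  refine ⟨1 / (((k ^ k : ℕ) : ℝ) * ((K : ℝ) + 1)), by positivity, n0, fun n hn H h3 hK hP => ?_⟩
  exact h n hn H h3 hK (Pool.Agent.TH773.CL.nat_of_real rfl hk0 hP (gS_le h3 m))

end Pool.Agent.X59.OS
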