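import Pool.Agent.Y47.BU5.CUA
import Pool.Agent.Y47.BU.OCnt

/-! Blow-ups of a pattern contain sets with a given property; books and cones over books. -/

set_option autoImplicit false
set_option maxRecDepth 100000
set_option maxHeartbeats 4000000
open Finset
open scoped Classical

namespace Pool.Agent.X59.OS
open Pool.Agent.Y47.BU Pool.Agent.Y47.BU5
open Pool.Agent.H122R2.N6 Pool.Agent.H37R3.Pen Pool.Agent.H37R3.Cop Pool.Agent.H37R3.CopL
open Pool.Agent.TH773 Pool.Agent.TH773.ST

/-- blow-ups of a pattern against sets with a property -/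
theorem occ_sets {n k t : ℕ} {H : Finset (Finset (Fin n))} {P : Pt} (e : Fin k → Fin P.k × Fin t)
    (he : Function.Injective e) (Q : Finset (Fin n) → Prop)
    (hQ : ∀ w : Fin P.k × Fin t → Fin n, Occ (tri H) P t w → Q (univ.image (w ∘ e))) :
    (occS (tri H) P t).card ≤
      (k ^ k * (((univ : Finset (Fin n)).powersetCard k).filter Q).card) * n ^ (P.k * t - k) := by
  set LS : Finset (Fin k → Fin n) := univ.filter fun x => Function.Injective x ∧ Q (univ.image x)
    with hLS
  have h1 := pull (V := Fin n) e he (occS (tri H) P t) LS ?_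
  · have h2 : LS.card ≤ k ^ k * (((univ : Finset (Fin n)).powersetCard k).filter Q).card := by
      refine (card_le_mul_card_image (f := fun x : Fin k → Fin n => univ.image x)
        LS (k ^ k) ?_).trans ?_
      · intro S hS
        obtain ⟨x, hx, rfl⟩ := mem_image.mp hS
        have hxi := (mem_filter.mp hx).2.1
        have h1 : (LS.filter fun y => univ.image y = univ.image x).card ≤
            (Fintype.piFinset fun _ : Fin k => univ.image x).card := by
          refine card_le_card fun y hy => ?_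
          rw [Fintype.mem_piFinset]
          intro i
          rw [← (mem_filter.mp hy).2]
          exact mem_image_of_mem _ (mem_univ i)
        refine h1.trans (le_of_eq ?_)
        rw [Fintype.card_piFinset, prod_const, card_image_of_injective _ hxi, card_univ,
          Fintype.card_fin]
      · refine Nat.mul_le_mul_left _ (card_le_card ?_)
        intro S hS
        obtain ⟨x, hx, rfl⟩ := mem_image.mp hS
        obtain ⟨-, hxi, hxs⟩ := mem_filter.mp hx
        refine mem_filter.mpr ⟨mem_powersetCard.mpr ⟨subset_univ _, ?_⟩, hxs⟩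
        rw [card_image_of_injective _ hxi, card_univ, Fintype.card_fin]
    have c1 : Fintype.card (Fin P.k × Fin t) = P.k * t := by
      rw [Fintype.card_prod, Fintype.card_fin, Fintype.card_fin]
    rw [c1, Fintype.card_fin, Fintype.card_fin] at h1
    exact h1.trans (Nat.mul_le_mul_right _ h2)
  · intro w hw
    have hO : Occ (tri H) P t w := (mem_filter.mp hw).2
    exact mem_filter.mpr ⟨mem_univ _, hO.inj.comp he, hQ w hO⟩

theorem small_occ {n k t K : ℕ} {H : Finset (Finset (Fin n))} {P : Pt}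
    (e : Fin k → Fin P.k × Fin t)
    (he : Function.Injective e) (Q : Finset (Fin n) → Prop)
    (hQ : ∀ w : Fin P.k × Fin t → Fin n, Occ (tri H) P t w → Q (univ.image (w ∘ e)))
    (hc : ((((univ : Finset (Fin n)).powersetCard k).filter Q).card : ℝ) ≤
      1 / (((k ^ k : ℕ) : ℝ) * ((K : ℝ) + 1)) * (n : ℝ) ^ k) (hk : 0 < k) :
    K * (occS (tri H) P t).card ≤ n ^ (P.k * t) := by
  have h1 := occ_sets e he Q hQ
  set N := (((univ : Finset (Fin n)).powersetCard k).filter Q).card with hN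
  have hkt : k ≤ P.k * t := by
    have := Fintype.card_le_of_injective e he
    rwa [Fintype.card_prod, Fintype.card_fin, Fintype.card_fin, Fintype.card_fin] at this
  have hkk : 0 < k ^ k := Nat.pow_pos hk
  have h2 : K * (k ^ k * N) ≤ n ^ k := by
    have a0 : (0 : ℝ) < ((k ^ k : ℕ) : ℝ) := by exact_mod_cast hkk
    have a1 : (K : ℝ) * (((k ^ k : ℕ) : ℝ) * N) ≤ (n : ℝ) ^ k := by
      rw [div_mul_eq_mul_div, one_mul, le_div_iff₀ (by positivity)] at hc
      have : (0 : ℝ) ≤ (N : ℝ) := Nat.cast_nonneg _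
      have h3 : (0 : ℝ) ≤ ((k ^ k : ℕ) : ℝ) * N := by positivity
      nlinarith
    exact_mod_cast a1
  calc K * (occS (tri H) P t).card ≤ K * ((k ^ k * N) * n ^ (P.k * t - k)) :=
        Nat.mul_le_mul_left _ h1
    _ = (K * (k ^ k * N)) * n ^ (P.k * t - k) := by ring
    _ ≤ n ^ k * n ^ (P.k * t - k) := Nat.mul_le_mul_right _ h2
    _ = n ^ (P.k * t) := by rw [← pow_add]; congr 1; omega

/-- the density `3/4` if few `k`-sets have a property which the blow-ups of the pattern yield -/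
theorem set_main5 {P : Pt} (hok : ∀ m ∈ Pool.Agent.H37R3.UA.MS, ∃ tr, ck5 P m [] tr = true)
    {k t : ℕ} (hk : 0 < k) (e : Fin k → Fin P.k × Fin t) (he : Function.Injective e)
    (Q : (n : ℕ) → Finset (Finset (Fin n)) → Finset (Fin n) → Prop)
    (hQ : ∀ (n : ℕ) (H : Finset (Finset (Fin n))) (w : Fin P.k × Fin t → Fin n),
      (∀ e ∈ H, e.card = 3) → Occ (tri H) P t w → Q n H (univ.image (w ∘ e)))
    {ε : ℝ} (hε : 0 < ε) : ∃ δ : ℝ, 0 < δ ∧ ∃ n0 : ℕ, ∀ n, n0 ≤ n →
      ∀ H : Finset (Finset (Fin n)), (∀ e ∈ H, e.card = 3) → Pool.Agent.H37R3.K5.K53Free H →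
      ((((univ : Finset (Fin n)).powersetCard k).filter (Q n H)).card : ℝ) ≤ δ * (n : ℝ) ^ k →
      (H.card : ℝ) ≤ (3 / 4 + ε) * (n.choose 3 : ℝ) := by
  obtain ⟨K, n0, h⟩ := main5 certUA P t hok hε
  refine ⟨1 / (((k ^ k : ℕ) : ℝ) * ((K : ℝ) + 1)), ?_, n0, fun n hn H h3 hK hl => ?_⟩
  · have hkk : 0 < k ^ k := Nat.pow_pos hk
    have a0 : (0 : ℝ) < ((k ^ k : ℕ) : ℝ) := by exact_mod_cast hkk
    positivity
  · exact h n hn H h3 hK (small_occ e he (Q n H) (fun w hw => hQ n H w h3 hw) hl hk)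

/-- Turán's bound for `K_4^3` and stability if few `k`-sets have such a property -/
theorem set_main4 (i : Fin 5) {P : Pt} (hok : ∀ m ∈ famM i, ∃ tr, chk P m [] tr = true)
    {k t : ℕ} (hk : 0 < k) (e : Fin k → Fin P.k × Fin t) (he : Function.Injective e)
    (Q : (n : ℕ) → Finset (Finset (Fin n)) → Finset (Fin n) → Prop)
    (hQ : ∀ (n : ℕ) (H : Finset (Finset (Fin n))) (w : Fin P.k × Fin t → Fin n),
      (∀ e ∈ H, e.card = 3) → Occ (tri H) P t w → Q n H (univ.image (w ∘ e)))
    {ε : ℝ} (hε : 0 < ε) : ∃ δ : ℝ, 0 < δ ∧ ∃ n0 : ℕ, ∀ n, n0 ≤ n →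
      ∀ H : Finset (Finset (Fin n)), (∀ e ∈ H, e.card = 3) → Turan34.K43Free H →
      ((((univ : Finset (Fin n)).powersetCard k).filter (Q n H)).card : ℝ) ≤ δ * (n : ℝ) ^ k →
      (H.card : ℝ) ≤ (5 / 9 + ε) * (n.choose 3 : ℝ) ∧ ∃ g : Fin n → Fin 3,
      ((symmDiff H (Turan34.turan g)).card : ℝ) ≤
        1161216000 * (5 / 54 * (n : ℝ) ^ 3 - H.card) + ε * (n : ℝ) ^ 3 := by
  obtain ⟨K, n0, h⟩ := main i P t hok hε
  refine ⟨1 / (((k ^ k : ℕ) : ℝ) * ((K : ℝ) + 1)), ?_, n0, fun n hn H h3 hK hl => ?_⟩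
  · have hkk : 0 < k ^ k := Nat.pow_pos hk
    have a0 : (0 : ℝ) < ((k ^ k : ℕ) : ℝ) := by exact_mod_cast hkk
    positivity
  · exact h n hn H h3 hK (small_occ e he (Q n H) (fun w hw => hQ n H w h3 hw) hl hk)

end Pool.Agent.X59.OS
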