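import Pool.Agent.X59.OS.Book

/-! The complete bipartite 3-graph: sizes of induced subgraphs. -/

set_option autoImplicit false
set_option maxRecDepth 100000
set_option maxHeartbeats 4000000
open Finset
open scoped Classical

namespace Pool.Agent.X59.OS
open Pool.Agent.H37R3.K5 (K53Free)
open Pool.Agent.TH773 Pool.Agent.TH773.ST

/-- Turán's construction: the triples that meet both `A` and its complement. -/
noncomputable def twoClass {n : ℕ} (A : Finset (Fin n)) : Finset (Finset (Fin n)) :=
  univ.filter fun e => e.card = 3 ∧ ¬ e ⊆ A ∧ ¬ e ⊆ Aᶜ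

theorem twoClass_free {n : ℕ} (A : Finset (Fin n)) : K53Free (twoClass A) := by
  intro S hS
  have h1 : (S.filter fun x => x ∈ A).card + (S.filter fun x => ¬ x ∈ A).card = 5 := by
    rw [card_filter_add_card_filter_not, hS]
  rcases Nat.lt_or_ge (S.filter fun x => x ∈ A).card 3 with h2 | h2
  · obtain ⟨s, hs, hs3⟩ := exists_subset_card_eq (s := S.filter fun x => ¬ x ∈ A) (n := 3)
      (by omega)
    refine ⟨s, hs.trans (filter_subset _ _), hs3, fun h => ?_⟩
    exact (mem_filter.mp h).2.2.2 fun x hx => mem_compl.mpr (mem_filter.mp (hs hx)).2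
  · obtain ⟨s, hs, hs3⟩ := exists_subset_card_eq (s := S.filter fun x => x ∈ A) (n := 3) h2
    refine ⟨s, hs.trans (filter_subset _ _), hs3, fun h => ?_⟩
    exact (mem_filter.mp h).2.2.1 fun x hx => (mem_filter.mp (hs hx)).2

theorem ch3 (n : ℕ) : 6 * ((n.choose 3 : ℕ) : ℝ) = n * (n - 1) * (n - 2) := by
  rcases Nat.lt_or_ge n 3 with h | h
  · interval_cases n <;> simp [Nat.choose]
  · have h1 : n.descFactorial 3 = Nat.factorial 3 * n.choose 3 :=
      Nat.descFactorial_eq_factorial_mul_choose n 3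
    obtain ⟨m, rfl⟩ : ∃ m, n = m + 3 := ⟨n - 3, by omega⟩
    have h2 : (m + 3).descFactorial 3 = (m + 1) * ((m + 2) * (m + 3)) := by
      rw [Nat.descFactorial_succ, Nat.descFactorial_succ, Nat.descFactorial_succ,
        Nat.descFactorial_zero]
      have e1 : m + 3 - 0 = m + 3 := by omega
      have e2 : m + 3 - 1 = m + 2 := by omega
      have e3 : m + 3 - 2 = m + 1 := by omega
      rw [e1, e2, e3, mul_one]
    rw [h2] at h1
    have h3 : ((m : ℝ) + 1) * ((m + 2) * (m + 3)) = 6 * (((m + 3).choose 3 : ℕ) : ℝ) := by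
      have h4 : (((m + 1) * ((m + 2) * (m + 3)) : ℕ) : ℝ) =
          ((Nat.factorial 3 * (m + 3).choose 3 : ℕ) : ℝ) := by rw [h1]
      have h5 : Nat.factorial 3 = 6 := by decide
      rw [h5] at h4
      push_cast at h4
      linarith
    rw [← h3]
    push_cast
    ring

theorem twoClass_card (n : ℕ) : ∃ A : Finset (Fin n), 3 * n.choose 3 ≤ 4 * (twoClass A).card := by
  obtain ⟨A, -, hA⟩ := exists_subset_card_eq (s := (univ : Finset (Fin n))) (n := n / 2)
    (by rw [card_univ, Fintype.card_fin]; omega)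
  refine ⟨A, ?_⟩
  have hAc : Aᶜ.card = n - n / 2 := by rw [card_compl, Fintype.card_fin, hA]
  have h1 : (univ : Finset (Fin n)).powersetCard 3 ⊆
      twoClass A ∪ (A.powersetCard 3 ∪ Aᶜ.powersetCard 3) := by
    intro e he
    have he3 := (mem_powersetCard.mp he).2
    by_cases e1 : e ⊆ A
    · exact mem_union_right _ (mem_union_left _ (mem_powersetCard.mpr ⟨e1, he3⟩))
    · by_cases e2 : e ⊆ Aᶜ
      · exact mem_union_right _ (mem_union_right _ (mem_powersetCard.mpr ⟨e2, he3⟩))
      · exact mem_union_left _ (mem_filter.mpr ⟨mem_univ _, he3, e1, e2⟩)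
  have h2 := (card_le_card h1).trans ((card_union_le _ _).trans
    (Nat.add_le_add_left (card_union_le _ _) _))
  rw [card_powersetCard, card_powersetCard, card_powersetCard, card_univ, Fintype.card_fin, hA,
    hAc] at h2
  have h3 : 4 * ((n / 2).choose 3 + (n - n / 2).choose 3) ≤ n.choose 3 := by
    have c0 := ch3 n
    have c1 := ch3 (n / 2)
    have c2 := ch3 (n - n / 2)
    have key : (4 : ℝ) * (((n / 2).choose 3 : ℕ) + ((n - n / 2).choose 3 : ℕ)) ≤
        ((n.choose 3 : ℕ) : ℝ) := by
      rcases Nat.even_or_odd' n with ⟨k, rfl | rfl⟩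
      · have e1 : 2 * k / 2 = k := by omega
        have e2 : 2 * k - 2 * k / 2 = k := by omega
        rw [e2] at c2
        rw [e1] at c1
        rw [e2, e1]
        push_cast at c0 c1 c2
        rcases Nat.eq_zero_or_pos k with rfl | hk
        · simp
        · have hk1 : (1 : ℝ) ≤ k := by exact_mod_cast hk
          nlinarith [mul_nonneg (by linarith : (0 : ℝ) ≤ k) (by linarith : (0 : ℝ) ≤ (k : ℝ) - 1)]
      · have e1 : (2 * k + 1) / 2 = k := by omega
        have e2 : 2 * k + 1 - (2 * k + 1) / 2 = k + 1 := by omega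
        rw [e2] at c2
        rw [e1] at c1
        rw [e2, e1]
        push_cast at c0 c1 c2
        rcases Nat.eq_zero_or_pos k with rfl | hk
        · simp [Nat.choose]
        · have hk1 : (1 : ℝ) ≤ k := by exact_mod_cast hk
          have q : (0 : ℝ) ≤ k * (2 * k - 1) := mul_nonneg (by linarith) (by linarith)
          nlinarith [q]
    exact_mod_cast key
  omega

/-- the number of edges inside a set -/
theorem two_count {n : ℕ} (A S : Finset (Fin n)) : ∃ a b : ℕ, a + b = S.card ∧
    2 * ((twoClass A).filter fun e => e ⊆ S).card + 2 * a * b = a * b * S.card := by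
  refine ⟨(S ∩ A).card, (S \ A).card, card_inter_add_card_sdiff S A, ?_⟩
  set a := (S ∩ A).card with ha
  set b := (S \ A).card with hb
  have hab : a + b = S.card := card_inter_add_card_sdiff S A
  have h1 : S.powersetCard 3 = ((twoClass A).filter fun e => e ⊆ S) ∪
      ((S ∩ A).powersetCard 3 ∪ (S \ A).powersetCard 3) := by
    ext e
    simp only [mem_union, mem_filter, mem_powersetCard, twoClass, mem_univ, true_and]
    constructor
    · rintro ⟨h1, h2⟩
      by_cases e1 : e ⊆ A
      · exact Or.inr (Or.inl ⟨subset_inter h1 e1, h2⟩)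
      · by_cases e2 : e ⊆ Aᶜ
        · refine Or.inr (Or.inr ⟨fun x hx => mem_sdiff.mpr ⟨h1 hx, ?_⟩, h2⟩)
          exact mem_compl.mp (e2 hx)
        · exact Or.inl ⟨⟨h2, e1, e2⟩, h1⟩
    · rintro (⟨⟨h1, -, -⟩, h2⟩ | ⟨h1, h2⟩ | ⟨h1, h2⟩)
      · exact ⟨h2, h1⟩
      · exact ⟨h1.trans inter_subset_left, h2⟩
      · exact ⟨h1.trans sdiff_subset, h2⟩
  have d1 : Disjoint ((S ∩ A).powersetCard 3) ((S \ A).powersetCard 3) := by
    rw [Finset.disjoint_left]
    intro e h1 h2
    obtain ⟨h1, h3⟩ := mem_powersetCard.mp h1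
    obtain ⟨h2, -⟩ := mem_powersetCard.mp h2
    obtain ⟨x, hx⟩ : e.Nonempty := card_pos.mp (by omega)
    exact (mem_sdiff.mp (h2 hx)).2 (mem_inter.mp (h1 hx)).2
  have d2 : Disjoint ((twoClass A).filter fun e => e ⊆ S)
      ((S ∩ A).powersetCard 3 ∪ (S \ A).powersetCard 3) := by
    rw [Finset.disjoint_left]
    intro e h1 h2
    have h3 := (mem_filter.mp (mem_filter.mp h1).1).2
    rcases mem_union.mp h2 with h4 | h4
    · exact h3.2.1 ((mem_powersetCard.mp h4).1.trans inter_subset_right)
    · refine h3.2.2 fun x hx => mem_compl.mpr ?_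
      exact (mem_sdiff.mp ((mem_powersetCard.mp h4).1 hx)).2
  have h2 := congrArg card h1
  rw [card_union_of_disjoint d2, card_union_of_disjoint d1, card_powersetCard, card_powersetCard,
    card_powersetCard, ← ha, ← hb, ← hab] at h2
  rw [← hab]
  set N := ((twoClass A).filter fun e => e ⊆ S).card with hN
  have c0 := ch3 (a + b)
  have c1 := ch3 a
  have c2 := ch3 b
  have h3 : (((a + b).choose 3 : ℕ) : ℝ) = N + ((a.choose 3 : ℕ) + (b.choose 3 : ℕ)) := by
    exact_mod_cast h2
  have h4 : (2 : ℝ) * N + 2 * a * b = a * b * (a + b) := by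
    push_cast at c0
    nlinarith
  exact_mod_cast h4

/-- the sizes that do not occur -/
theorem two_spans {n k m : ℕ} (A : Finset (Fin n))
    (h : ∀ a ≤ k, 2 * m + 2 * a * (k - a) ≠ a * (k - a) * k) :
    Turan34.spans (twoClass A) k m = 0 := by
  unfold Turan34.spans
  rw [card_eq_zero, filter_eq_empty_iff]
  intro S hS hm
  have hk := (mem_powersetCard.mp hS).2
  obtain ⟨a, b, hab, hc⟩ := two_count A S
  have e1 : ((twoClass A).filter fun e => e ⊆ S).card = m := by
    rw [← hm]
  rw [e1, hk] at hc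
  rw [hk] at hab
  obtain rfl : b = k - a := by omega
  exact h a (by omega) hc

/-- a book with `t` pages has `t` edges -/
theorem book_card {n : ℕ} {H : Finset (Finset (Fin n))} (h3 : ∀ e ∈ H, e.card = 3)
    {S : Finset (Fin n)} (hB : IsBook H S) : (H.filter fun e => e ⊆ S).card + 2 = S.card := by
  obtain ⟨x, hx, y, hy, hxy, hS⟩ := hB
  have h1 : ((S.erase x).erase y).card + 2 = S.card := by
    have e1 := card_erase_of_mem (mem_erase.mpr ⟨hxy.symm, hy⟩)
    have e2 := card_erase_of_mem hx
    have e3 : 2 ≤ S.card := by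
      have : ({x, y} : Finset (Fin n)) ⊆ S := by
        intro z hz
        simp only [mem_insert, mem_singleton] at hz
        rcases hz with rfl | rfl
        exacts [hx, hy]
      have h2 := card_le_card this
      rwa [card_pair hxy] at h2
    omega
  rw [← h1]
  congr 1
  symm
  refine card_bij (fun z _ => ({x, y, z} : Finset (Fin n))) ?_ ?_ ?_
  · intro z hz
    obtain ⟨hzy, hz2⟩ := mem_erase.mp hz
    obtain ⟨hzx, hzS⟩ := mem_erase.mp hz2
    have hs : ({x, y, z} : Finset (Fin n)) ⊆ S := by
      intro w hw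
      simp only [mem_insert, mem_singleton] at hw
      rcases hw with rfl | rfl | rfl
      exacts [hx, hy, hzS]
    have hc : ({x, y, z} : Finset (Fin n)).card = 3 := by
      rw [card_insert_of_notMem, card_pair hzy.symm]
      simp only [mem_insert, mem_singleton, not_or]
      exact ⟨hxy, hzx.symm⟩
    exact mem_filter.mpr ⟨(hS _ hs hc).mpr ⟨by simp, by simp⟩, hs⟩
  · intro z hz z' hz' h
    obtain ⟨hzy, hz2⟩ := mem_erase.mp hz
    obtain ⟨hzx, hzS⟩ := mem_erase.mp hz2
    have h1 : z ∈ ({x, y, z'} : Finset (Fin n)) := by rw [← h]; simp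
    simp only [mem_insert, mem_singleton] at h1
    rcases h1 with h1 | h1 | h1
    · exact absurd h1 hzx
    · exact absurd h1 hzy
    · exact h1
  · intro e he
    obtain ⟨heH, heS⟩ := mem_filter.mp he
    obtain ⟨hxe, hye⟩ := (hS e heS (h3 e heH)).mp heH
    have hc : ((e.erase x).erase y).card = 1 := by
      rw [card_erase_of_mem (mem_erase.mpr ⟨hxy.symm, hye⟩), card_erase_of_mem hxe, h3 e heH]
    obtain ⟨z, hz⟩ := card_eq_one.mp hc
    have hz1 : z ∈ (e.erase x).erase y := by rw [hz]; exact mem_singleton_self z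
    obtain ⟨hzy, hz2⟩ := mem_erase.mp hz1
    obtain ⟨hzx, hze⟩ := mem_erase.mp hz2
    refine ⟨z, mem_erase.mpr ⟨hzy, mem_erase.mpr ⟨hzx, heS hze⟩⟩, ?_⟩
    ext w
    simp only [mem_insert, mem_singleton]
    constructor
    · rintro (rfl | rfl | rfl)
      exacts [hxe, hye, hze]
    · intro hw
      by_cases hwx : w = x
      · exact Or.inl hwx
      · by_cases hwy : w = y
        · exact Or.inr (Or.inl hwy)
        · have h4 : w ∈ (e.erase x).erase y := mem_erase.mpr ⟨hwy, mem_erase.mpr ⟨hwx, hw⟩⟩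
          rw [hz] at h4
          exact Or.inr (Or.inr (mem_singleton.mp h4))

/-- the sets that span a book with `t` pages -/
noncomputable def books {n : ℕ} (H : Finset (Finset (Fin n))) (t : ℕ) : ℕ :=
  (((univ : Finset (Fin n)).powersetCard (t + 2)).filter (IsBook H)).card

theorem books_le {n : ℕ} {H : Finset (Finset (Fin n))} (h3 : ∀ e ∈ H, e.card = 3) (t : ℕ) :
    books H t ≤ Turan34.spans H (t + 2) t := by
  unfold books Turan34.spans
  refine card_le_card fun S hS => ?_
  obtain ⟨h1, h2⟩ := mem_filter.mp hS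
  refine mem_filter.mpr ⟨h1, ?_⟩
  have h4 := book_card h3 h2
  have h5 := (mem_powersetCard.mp h1).2
  rw [h5] at h4
  have e1 : (H.filter fun e => e ⊆ S).card = t := by omega
  exact e1

end Pool.Agent.X59.OS
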